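import Pool.Agent.Helper98.QR.StmtsC

/-!
# Block C, row C15: rules for tail domination
-/

namespace QR

namespace C15

noncomputable section

open PowerSeries
open scoped ENNReal

/-- tail in `ℝ≥0∞` -/
def T (f : ℕ → ℝ≥0∞) (M : ℕ) : ℝ≥0∞ := ∑' n, f (n + M)

/-- Cauchy product -/
def cv (f g : ℕ → ℝ≥0∞) (n : ℕ) : ℝ≥0∞ := ∑ p ∈ Finset.HasAntidiagonal.antidiagonal n, f p.1 * g p.2

theorem T_ite (f : ℕ → ℝ≥0∞) (M : ℕ) : T f M = ∑' n, if M ≤ n then f n else 0 := by
  have h := Summable.sum_add_tsum_nat_add' (f := fun n => if M ≤ n then f n else 0) (k := M)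
    ENNReal.summable
  rw [← h, Finset.sum_eq_zero, zero_add]
  · unfold T
    refine tsum_congr fun n => ?_
    simp
  · intro n hn
    rw [if_neg]
    have := Finset.mem_range.1 hn
    omega

theorem T_cv (f g : ℕ → ℝ≥0∞) (M : ℕ) : T (cv f g) M = ∑' j, g j * T f (M - j) := by
  rw [T_ite]
  have h1 : ∀ n, (if M ≤ n then cv f g n else 0) =
      ∑' p : Finset.HasAntidiagonal.antidiagonal n, (if M ≤ (p : ℕ × ℕ).1 + (p : ℕ × ℕ).2 then
        f (p : ℕ × ℕ).1 * g (p : ℕ × ℕ).2 else 0) := by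
    intro n
    rw [Finset.tsum_subtype (Finset.HasAntidiagonal.antidiagonal n)
      (fun p : ℕ × ℕ => if M ≤ p.1 + p.2 then f p.1 * g p.2 else 0)]
    unfold cv
    split_ifs with hn
    · refine Finset.sum_congr rfl fun p hp => ?_
      rw [if_pos]
      rw [Finset.HasAntidiagonal.mem_antidiagonal.1 hp]
      exact hn
    · symm
      refine Finset.sum_eq_zero fun p hp => ?_
      rw [if_neg]
      rw [Finset.HasAntidiagonal.mem_antidiagonal.1 hp]
      exact hn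
  simp_rw [h1]
  have h3 := ENNReal.tsum_sigma' (fun x : Σ n : ℕ, Finset.HasAntidiagonal.antidiagonal n =>
    if M ≤ (x.2 : ℕ × ℕ).1 + (x.2 : ℕ × ℕ).2 then f (x.2 : ℕ × ℕ).1 * g (x.2 : ℕ × ℕ).2 else 0)
  have h2 := (Finset.HasAntidiagonal.sigmaAntidiagonalEquivProd (A := ℕ)).tsum_eq
    (fun p : ℕ × ℕ => if M ≤ p.1 + p.2 then f p.1 * g p.2 else 0)
  simp only [Finset.HasAntidiagonal.sigmaAntidiagonalEquivProd_apply] at h2
  refine h3.symm.trans (h2.trans ?_)
  rw [ENNReal.tsum_prod', ENNReal.tsum_comm]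
  refine tsum_congr fun j => ?_
  rw [T_ite, ← ENNReal.tsum_mul_left]
  refine tsum_congr fun i => ?_
  by_cases h : M ≤ i + j
  · rw [if_pos h, if_pos (by omega), mul_comm]
  · rw [if_neg h, if_neg (by omega), mul_zero]

theorem T_cv_mono {f f' g : ℕ → ℝ≥0∞} (h : ∀ M, T f M ≤ T f' M) (M : ℕ) :
    T (cv f g) M ≤ T (cv f' g) M := by
  rw [T_cv, T_cv]
  exact ENNReal.tsum_le_tsum fun j => mul_le_mul_right (h _) _

/-- coefficients as extended nonnegative reals -/
def co (a : PowerSeries ℝ) (n : ℕ) : ℝ≥0∞ := ENNReal.ofReal (coeff n a)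

theorem co_tl {a : PowerSeries ℝ} (ha : NS a) (M : ℕ) : ENNReal.ofReal (tl a M) = T (co a) M := by
  unfold tl T co
  exact ENNReal.ofReal_tsum_of_nonneg (fun n => ha.1 _) ((summable_nat_add_iff M).2 ha.2)

theorem tl_nonneg {a : PowerSeries ℝ} (ha : ∀ n, 0 ≤ coeff n a) (M : ℕ) : 0 ≤ tl a M :=
  tsum_nonneg fun _ => ha _

theorem TLe_iff {a b : PowerSeries ℝ} (ha : NS a) (hb : NS b) :
    TLe a b ↔ ∀ M, T (co a) M ≤ T (co b) M := by
  constructor
  · intro h M
    rw [← co_tl ha, ← co_tl hb]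
    exact ENNReal.ofReal_le_ofReal (h.2.2 M)
  · intro h
    refine ⟨ha, hb, fun M => ?_⟩
    have := h M
    rw [← co_tl ha, ← co_tl hb] at this
    exact (ENNReal.ofReal_le_ofReal_iff (tl_nonneg hb.1 M)).1 this

theorem NS_mul {a b : PowerSeries ℝ} (ha : NS a) (hb : NS b) : NS (a * b) := by
  constructor
  · intro n
    rw [coeff_mul]
    exact Finset.sum_nonneg fun p _ => mul_nonneg (ha.1 _) (hb.1 _)
  · have h1 : Summable fun x : ℕ × ℕ => coeff x.1 a * coeff x.2 b :=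
      Summable.mul_of_nonneg (f := fun n => coeff n a) (g := fun n => coeff n b) ha.2 hb.2
        (fun n => ha.1 n) (fun n => hb.1 n)
    have h2 := summable_sum_mul_antidiagonal_of_summable_mul (f := fun n => coeff n a)
      (g := fun n => coeff n b) h1
    refine h2.congr fun n => ?_
    rw [coeff_mul]

theorem co_mul {a b : PowerSeries ℝ} (ha : NS a) (hb : NS b) : co (a * b) = cv (co a) (co b) := by
  funext n
  unfold co cv
  rw [coeff_mul, ENNReal.ofReal_sum_of_nonneg (fun p _ => mul_nonneg (ha.1 _) (hb.1 _))]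
  exact Finset.sum_congr rfl fun p _ => ENNReal.ofReal_mul (ha.1 _)

theorem TLe_mul_right {a a' b : PowerSeries ℝ} (h : TLe a a') (hb : NS b) :
    TLe (a * b) (a' * b) := by
  rw [TLe_iff (NS_mul h.1 hb) (NS_mul h.2.1 hb), co_mul h.1 hb, co_mul h.2.1 hb]
  exact T_cv_mono ((TLe_iff h.1 h.2.1).1 h)

theorem TLe_trans {a b c : PowerSeries ℝ} (h : TLe a b) (h' : TLe b c) : TLe a c :=
  ⟨h.1, h'.2.1, fun M => (h.2.2 M).trans (h'.2.2 M)⟩

theorem TLe_refl {a : PowerSeries ℝ} (h : NS a) : TLe a a := ⟨h, h, fun _ => le_rfl⟩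

theorem TLe_mul {a b a' b' : PowerSeries ℝ} (h : TLe a a') (h' : TLe b b') :
    TLe (a * b) (a' * b') := by
  refine TLe_trans (TLe_mul_right h h'.1) ?_
  rw [mul_comm a' b, mul_comm a' b']
  exact TLe_mul_right h' h.2.1

theorem NS_add {a b : PowerSeries ℝ} (ha : NS a) (hb : NS b) : NS (a + b) := by
  constructor
  · intro n
    rw [map_add]
    exact add_nonneg (ha.1 n) (hb.1 n)
  · simp_rw [map_add]
    exact ha.2.add hb.2

theorem tl_add {a b : PowerSeries ℝ} (ha : NS a) (hb : NS b) (M : ℕ) :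
    tl (a + b) M = tl a M + tl b M := by
  unfold tl
  simp_rw [map_add]
  exact ((summable_nat_add_iff M).2 ha.2).tsum_add ((summable_nat_add_iff M).2 hb.2)

theorem TLe_add {a b a' b' : PowerSeries ℝ} (h : TLe a a') (h' : TLe b b') :
    TLe (a + b) (a' + b') := by
  refine ⟨NS_add h.1 h'.1, NS_add h.2.1 h'.2.1, fun M => ?_⟩
  rw [tl_add h.1 h'.1, tl_add h.2.1 h'.2.1]
  exact add_le_add (h.2.2 M) (h'.2.2 M)

theorem NS_of_le {a b : PowerSeries ℝ} (hb : NS b) (h0 : ∀ n, 0 ≤ coeff n a)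
    (h : ∀ n, coeff n a ≤ coeff n b) : NS a :=
  ⟨h0, Summable.of_nonneg_of_le h0 h hb.2⟩

theorem TLe_of_coeff {a b : PowerSeries ℝ} (hb : NS b) (h0 : ∀ n, 0 ≤ coeff n a)
    (h : ∀ n, coeff n a ≤ coeff n b) : TLe a b := by
  have ha := NS_of_le hb h0 h
  refine ⟨ha, hb, fun M => ?_⟩
  exact ((summable_nat_add_iff M).2 ha.2).tsum_le_tsum (fun n => h _) ((summable_nat_add_iff M).2 hb.2)

theorem TLe_of_partial {a b : PowerSeries ℝ} (hb : NS b) (h0 : ∀ n, 0 ≤ coeff n a)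
    (h : ∀ (K M : ℕ), ∑ n ∈ Finset.Ico M K, coeff n a ≤ tl b M) : TLe a b := by
  have ha : NS a := by
    refine ⟨h0, summable_of_sum_range_le h0 (c := tl b 0) fun n => ?_⟩
    rw [Finset.range_eq_Ico]
    exact h n 0
  refine ⟨ha, hb, fun M => ?_⟩
  unfold tl at h ⊢
  refine Real.tsum_le_of_sum_range_le (fun n => h0 _) fun n => ?_
  have := h (n + M) M
  rw [Finset.sum_Ico_eq_sum_range, Nat.add_sub_cancel] at this
  simp_rw [Nat.add_comm M] at this
  exact this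

end

end C15

/-- C15 -/
theorem st_C15 : ST_C15 :=
  ⟨fun _ _ _ _ h h' => C15.TLe_add h h', fun _ _ _ _ h h' => C15.TLe_mul h h',
    fun _ _ hb h0 h => C15.TLe_of_coeff hb h0 h, fun _ _ hb h0 h => C15.TLe_of_partial hb h0 h⟩

end QR
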