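import Pool.Agent.Helper42.QR.C15

/-!
# Block C, row C16: degree weights are dominated by the shift
-/

namespace QR

namespace C16

noncomputable section

open PowerSeries C15

theorem W_nonneg {ω θ : ℤ → ℝ} (hω : ∀ l, 0 ≤ ω l) (hθ : ∀ l, 0 ≤ θ l) :
    ∀ (t : LT) (l : ℤ), 0 ≤ t.W ω θ l := by
  intro t
  induction t with
  | nil => intro l; exact hω l
  | cons δ c s hc hs =>
    intro l
    exact mul_nonneg (hω l) (mul_nonneg (mul_nonneg (hθ _) (hc _)) (hs _))

theorem TS_nonneg {ω θ : ℤ → ℝ} (hω : ∀ l, 0 ≤ ω l) (hθ : ∀ l, 0 ≤ θ l) (l : ℤ) (n : ℕ) :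
    0 ≤ coeff n (TS ω θ l) := by
  rw [TS, coeff_mk]
  refine mul_nonneg (by positivity) (finsum_nonneg fun t => finsum_nonneg fun _ => ?_)
  exact W_nonneg hω hθ t l

theorem pos_nonneg (l : ℤ) : 0 ≤ pos l := by
  unfold pos; split_ifs <;> norm_num

theorem one_nonneg' (l : ℤ) : 0 ≤ one l := by
  unfold one; norm_num

theorem dg_nonneg (l : ℤ) : 0 ≤ dg l := by
  unfold dg; split_ifs <;> norm_num

theorem NS_C {x : ℝ} (hx : 0 ≤ x) : NS (C x) := by
  constructor
  · intro n
    rw [coeff_C]
    split_ifs
    · exact hx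
    · exact le_rfl
  · refine summable_of_ne_finset_zero (s := {0}) fun n hn => ?_
    rw [coeff_C, if_neg (by simpa using hn)]

theorem NS_one : NS 1 := by
  rw [← map_one (C (R := ℝ))]
  exact NS_C zero_le_one

theorem NS_X : NS X := by
  constructor
  · intro n
    rw [coeff_X]
    split_ifs
    · exact zero_le_one
    · exact le_rfl
  · refine summable_of_ne_finset_zero (s := {1}) fun n hn => ?_
    rw [coeff_X, if_neg (by simpa using hn)]

theorem TLe_const : TLe (C (13 / 12 : ℝ)) (1 + C (1 / 12) * X) := by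
  have ha : NS (C (13 / 12 : ℝ)) := NS_C (by norm_num)
  have hb : NS (1 + C (1 / 12 : ℝ) * X) := NS_add NS_one (NS_mul (NS_C (by norm_num)) NS_X)
  refine ⟨ha, hb, fun M => ?_⟩
  rcases Nat.eq_zero_or_pos M with rfl | hM
  · have h1 : tl (C (13 / 12 : ℝ)) 0 = 13 / 12 := by
      unfold tl
      rw [tsum_eq_single 0]
      · simp
      · intro n hn
        rw [coeff_C, if_neg (by omega)]
    have h2 : (13 / 12 : ℝ) ≤ tl (1 + C (1 / 12 : ℝ) * X) 0 := by
      have h3 := hb.2.sum_le_tsum (Finset.range 2) (fun n _ => hb.1 n)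
      refine le_trans ?_ h3
      simp only [Finset.sum_range_succ, Finset.sum_range_zero, map_add, coeff_C_mul, coeff_X,
        coeff_one]
      norm_num
    rw [h1]
    exact h2
  · have h1 : tl (C (13 / 12 : ℝ)) M = 0 := by
      unfold tl
      convert tsum_zero with n
      rw [coeff_C, if_neg (by omega)]
    rw [h1]
    exact tl_nonneg hb.1 M

/-- truncation -/
def tr (K : ℕ) (a : PowerSeries ℝ) : PowerSeries ℝ :=
  PowerSeries.mk fun n => if n < K then coeff n a else 0

theorem coeff_tr (K : ℕ) (a : PowerSeries ℝ) (n : ℕ) :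
    coeff n (tr K a) = if n < K then coeff n a else 0 := by
  rw [tr, coeff_mk]

theorem tr_nonneg {a : PowerSeries ℝ} (ha : ∀ n, 0 ≤ coeff n a) (K n : ℕ) :
    0 ≤ coeff n (tr K a) := by
  rw [coeff_tr]
  split_ifs
  · exact ha n
  · exact le_rfl

theorem NS_tr {a : PowerSeries ℝ} (ha : ∀ n, 0 ≤ coeff n a) (K : ℕ) : NS (tr K a) := by
  refine ⟨tr_nonneg ha K, summable_of_ne_finset_zero (s := Finset.range K) fun n hn => ?_⟩
  rw [coeff_tr, if_neg (by simpa using hn)]

theorem coeff_mul_tr {a b : PowerSeries ℝ} {K n : ℕ} (hn : n < K) :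
    coeff n (tr K a * tr K b) = coeff n (a * b) := by
  rw [coeff_mul, coeff_mul]
  refine Finset.sum_congr rfl fun p hp => ?_
  have := Finset.HasAntidiagonal.mem_antidiagonal.1 hp
  rw [coeff_tr, coeff_tr, if_pos (by omega), if_pos (by omega)]

theorem tr_add (K : ℕ) (a b : PowerSeries ℝ) : tr K (a + b) = tr K a + tr K b := by
  ext n
  rw [map_add, coeff_tr, coeff_tr, coeff_tr]
  split_ifs
  · rw [map_add]
  · rw [add_zero]

theorem tr_C_mul (K : ℕ) (x : ℝ) (a : PowerSeries ℝ) : tr K (C x * a) = C x * tr K a := by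
  ext n
  rw [coeff_C_mul, coeff_tr, coeff_tr, coeff_C_mul]
  split_ifs
  · rfl
  · rw [mul_zero]

/-- one step of the truncated recursion -/
theorem tr_step {x : ℝ} (hx : 0 ≤ x) {a b : PowerSeries ℝ} (ha : ∀ n, 0 ≤ coeff n a)
    (hb : ∀ n, 0 ≤ coeff n b) (h : a = C x * (1 + C (1 / 12) * X * b * a)) (K n : ℕ) :
    coeff n (tr (K + 1) a) ≤ coeff n (C x * (1 + C (1 / 12) * X * tr K b * tr K a)) := by
  have e1 : C (1 / 12) * X * tr K b * tr K a = C (1 / 12) * (X * (tr K b * tr K a)) := by ring
  have e2 : C (1 / 12) * X * b * a = C (1 / 12) * (X * (b * a)) := by ring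
  rw [coeff_tr, e1]
  have hnn : 0 ≤ coeff n (C x * (1 + C (1 / 12) * (X * (tr K b * tr K a)))) := by
    exact (NS_mul (NS_C hx) (NS_add NS_one (NS_mul (NS_C (by norm_num))
      (NS_mul NS_X (NS_mul (NS_tr hb K) (NS_tr ha K)))))).1 n
  split_ifs with hn
  · apply le_of_eq
    conv_lhs => rw [h, e2]
    rw [coeff_C_mul, coeff_C_mul, map_add, map_add, coeff_C_mul, coeff_C_mul]
    congr 2
    congr 1
    rcases n with _ | n
    · simp
    · rw [coeff_succ_X_mul, coeff_succ_X_mul, coeff_mul_tr (by omega)]
  · exact hnn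

end

end C16

open C15 C16 PowerSeries in
/-- C16 -/
theorem st_C16 (h02 : ST_C02) (h05 : ST_C05) : ST_C16 := by
  -- the undamped series
  have hR : ∀ l : ℤ, 1 ≤ l → NS (TS one pos l) := by
    intro l hl
    refine (h05 one pos (fun _ => 2) one_nonneg' pos_nonneg ?_ (fun _ => by norm_num) ?_ l hl).1
    · intro l hl
      unfold pos
      rw [if_neg (by omega)]
    · intro l _
      have h1 : ∀ l, pos l ≤ 1 := by
        intro l; unfold pos; split_ifs <;> norm_num
      have := h1 (l - 1)
      have := h1 l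
      have := h1 (l + 1)
      show one l * _ ≤ _
      unfold one
      nlinarith
  have hTn : ∀ (l : ℤ) (n : ℕ), 0 ≤ coeff n (TS dg pos l) := fun l n =>
    TS_nonneg dg_nonneg pos_nonneg l n
  have hRn : ∀ (l : ℤ) (n : ℕ), 0 ≤ coeff n (TS one pos l) := fun l n =>
    TS_nonneg one_nonneg' pos_nonneg l n
  have p0 : ∀ l : ℤ, 1 ≤ l → pos l = 1 := fun l hl => if_pos hl
  have key : ∀ (K : ℕ) (l : ℤ), 1 ≤ l → TLe (tr K (TS dg pos l)) (TS one pos (l + 1)) := by
    intro K
    induction K with
    | zero =>
      intro l hl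
      refine TLe_of_coeff (hR _ (by omega)) (tr_nonneg (hTn l) 0) fun n => ?_
      rw [coeff_tr, if_neg (by omega)]
      exact hRn _ n
    | succ K ih =>
      intro l hl
      rcases eq_or_lt_of_le hl with h1 | h1
      · -- the case `l = 1`
        subst h1
        have hT := h02 dg pos 1
        have q0 : pos ((1 : ℤ) - 1) = 0 := by unfold pos; norm_num
        rw [q0, p0 1 le_rfl, p0 (1 + 1) (by norm_num), map_zero, map_one, zero_mul, zero_add, one_mul,
          one_mul] at hT
        have q1 : dg 1 = 13 / 12 := if_pos rfl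
        rw [q1] at hT
        have s1 := tr_step (x := 13 / 12) (by norm_num) (hTn 1)
          (b := TS dg pos 1 + TS dg pos (1 + 1)) (fun n => by
            rw [map_add]; exact add_nonneg (hTn _ n) (hTn _ n)) hT K
        -- the right side
        set R2 := TS one pos (1 + 1) with hR2
        set R3 := TS one pos (1 + 1 + 1) with hR3
        set V := 1 + C (1 / 12) * X * (R2 + R3) * R2 with hV
        have nR2 : NS R2 := hR _ (by norm_num)
        have nR3 : NS R3 := hR _ (by norm_num)
        have nR1 : NS (TS one pos 1) := hR _ (by norm_num)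
        have nV : NS V := NS_add NS_one (NS_mul (NS_mul (NS_mul (NS_C (by norm_num)) NS_X)
          (NS_add nR2 nR3)) nR2)
        have hRr := h02 one pos (1 + 1)
        have q2 : (1 : ℤ) + 1 - 1 = 1 := by norm_num
        have q3 : one (1 + 1) = 1 := rfl
        rw [q2, q3, p0 1 le_rfl, p0 (1 + 1) (by norm_num), p0 (1 + 1 + 1) (by norm_num), map_one,
          one_mul, one_mul, one_mul, one_mul, ← hR2, ← hR3] at hRr
        have hR2V : R2 = V + C (1 / 12) * X * (TS one pos 1 * R2) := by
          rw [hV]
          conv_lhs => rw [hRr]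
          ring
        -- `V ≤ R2` coefficientwise
        have c1 : ∀ n, coeff n V ≤ coeff n R2 := by
          intro n
          have e := congrArg (coeff n) hR2V
          rw [map_add (coeff n) V _] at e
          have := (NS_mul (NS_mul (NS_C (x := 1 / 12) (by norm_num)) NS_X) (NS_mul nR1 nR2)).1 n
          rw [e]
          linarith
        -- `R1 ≥ 1`
        have hR1 := h02 one pos 1
        rw [q0, p0 1 le_rfl, p0 (1 + 1) (by norm_num), map_zero, map_one, zero_mul, zero_add, one_mul,
          one_mul, show one 1 = 1 from rfl, map_one, one_mul, ← hR2] at hR1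
        have c2 : ∀ n, coeff n ((1 + C (1 / 12) * X) * V) ≤ coeff n R2 := by
          intro n
          conv_rhs => rw [hR2V, hR1]
          have e : V + C (1 / 12) * X * ((1 + C (1 / 12) * X * (TS one pos 1 + R2) *
              TS one pos 1) * R2) = (1 + C (1 / 12) * X) * V + (C (1 / 12) * X * (R2 - V)
              + C (1 / 12) * X * (C (1 / 12) * X * (TS one pos 1 + R2) * TS one pos 1 * R2)) := by
            ring
          rw [e, map_add]
          have n1 : 0 ≤ coeff n (C (1 / 12) * X * (R2 - V)) := by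
            rw [mul_assoc, coeff_C_mul]
            refine mul_nonneg (by norm_num) ?_
            rcases n with _ | n
            · simp
            · rw [coeff_succ_X_mul, map_sub]
              linarith [c1 n]
          have n2 := (NS_mul (NS_mul (NS_C (x := 1 / 12) (by norm_num)) NS_X)
            (NS_mul (NS_mul (NS_mul (NS_mul (NS_C (x := 1 / 12) (by norm_num)) NS_X)
              (NS_add nR1 nR2)) nR1) nR2)).1 n
          rw [map_add]
          linarith
        have t1 : TLe (C (13 / 12 : ℝ) * (1 + C (1 / 12) * X * tr K (TS dg pos 1 + TS dg pos (1 + 1)) *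
            tr K (TS dg pos 1))) (C (13 / 12) * V) := by
          refine TLe_mul (TLe_refl (NS_C (by norm_num))) (TLe_add (TLe_refl NS_one) ?_)
          refine TLe_mul (TLe_mul (TLe_refl (NS_mul (NS_C (by norm_num)) NS_X)) ?_) ?_
          · rw [tr_add]
            exact TLe_add (ih 1 le_rfl) (ih (1 + 1) (by norm_num))
          · exact ih 1 le_rfl
        have t2 : TLe (C (13 / 12) * V) ((1 + C (1 / 12) * X) * V) :=
          TLe_mul TLe_const (TLe_refl nV)
        have t3 : TLe ((1 + C (1 / 12) * X) * V) R2 := TLe_of_coeff nR2 t2.2.1.1 c2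
        have t0 := TLe_of_coeff t1.1 (tr_nonneg (hTn 1) (K + 1)) s1
        exact TLe_trans t0 (TLe_trans t1 (TLe_trans t2 t3))
      · -- the case `l ≥ 2`
        have hT := h02 dg pos l
        have q1 : dg l = 1 := if_neg (by omega)
        rw [q1, p0 (l - 1) (by omega), p0 l hl, p0 (l + 1) (by omega), map_one, one_mul, one_mul,
          one_mul, one_mul] at hT
        have hRr := h02 one pos (l + 1)
        have q2 : l + 1 - 1 = l := by ring
        rw [q2, show one (l + 1) = 1 from rfl, p0 l hl, p0 (l + 1) (by omega),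
          p0 (l + 1 + 1) (by omega), map_one, one_mul, one_mul, one_mul, one_mul] at hRr
        have s1 := tr_step (x := 1) (by norm_num) (hTn l)
          (b := TS dg pos (l - 1) + TS dg pos l + TS dg pos (l + 1)) (fun n => by
            rw [map_add, map_add]
            exact add_nonneg (add_nonneg (hTn _ n) (hTn _ n)) (hTn _ n)) (by
              rw [map_one, one_mul]
              exact hT) K
        have t1 : TLe (C (1 : ℝ) * (1 + C (1 / 12) * X *
            tr K (TS dg pos (l - 1) + TS dg pos l + TS dg pos (l + 1)) *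
            tr K (TS dg pos l))) (TS one pos (l + 1)) := by
          rw [hRr, map_one, one_mul]
          refine TLe_add (TLe_refl NS_one) ?_
          refine TLe_mul (TLe_mul (TLe_refl (NS_mul (NS_C (by norm_num)) NS_X)) ?_) ?_
          · rw [tr_add, tr_add]
            refine TLe_add (TLe_add ?_ (ih l hl)) (ih (l + 1) (by omega))
            have := ih (l - 1) (by omega)
            rwa [sub_add_cancel] at this
          · exact ih l hl
        exact TLe_trans (TLe_of_coeff t1.1 (tr_nonneg (hTn l) (K + 1)) s1) t1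
  intro l hl
  refine TLe_of_partial (hR _ (by omega)) (hTn l) fun K M => ?_
  have h1 := key K l hl
  refine le_trans ?_ (h1.2.2 M)
  have h2 : ∑ n ∈ Finset.Ico M K, coeff n (TS dg pos l) =
      ∑ n ∈ Finset.range (K - M), coeff (n + M) (tr K (TS dg pos l)) := by
    rw [Finset.sum_Ico_eq_sum_range]
    refine Finset.sum_congr rfl fun n hn => ?_
    have := Finset.mem_range.1 hn
    rw [coeff_tr, if_pos (by omega), Nat.add_comm]
  rw [h2]
  unfold tl
  exact ((summable_nat_add_iff M).2 h1.1.2).sum_le_tsum _ (fun n _ => h1.1.1 _)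

end QR
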